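import Pool.Agent.Q101.WkF

/-!
# MP_f76f53_an, Q1: yes, with `c = 1/2`

For every bounded operator `T` on `C[0,1]` (real or complex scalars), and more generally for every
bounded operator `T : C[0,1] → C(K)`, `K` compact, `‖T^*‖_w ≥ (1/2) ‖T‖_w`.
-/

namespace Pool.Agent.Results.MP_f76f53_an.WeakEssentialNormDuality

variable {𝕜 : Type} [RCLike 𝕜] {E F : Type*} [NormedAddCommGroup E] [NormedSpace 𝕜 E]
  [NormedAddCommGroup F] [NormedSpace 𝕜 F]

/-- `W` is weakly compact: the image of the closed unit ball is relatively weakly compact, i.e. its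
closure in the weak topology of `F` is compact for the weak topology. -/
def WeaklyCompact (W : E →L[𝕜] F) : Prop :=
  IsCompact (closure (toWeakSpace 𝕜 F '' (W '' Metric.closedBall 0 1)))

/-- The adjoint `T^* : F^* → E^*`, `T^* φ = φ ∘ T`. -/
noncomputable def adjoint (T : E →L[𝕜] F) : StrongDual 𝕜 F →L[𝕜] StrongDual 𝕜 E :=
  (ContinuousLinearMap.compL 𝕜 E F 𝕜).flip T

/-- The weak essential norm `‖T‖_w = inf {‖T - W‖ : W weakly compact}`. -/
noncomputable def weakEssentialNorm (T : E →L[𝕜] F) : ℝ :=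
  sInf {r | ∃ W : E →L[𝕜] F, WeaklyCompact W ∧ r = ‖T - W‖}

/-- `‖T^*‖_w ≥ (1/2) ‖T‖_w`. -/
def HalfDuality (T : E →L[𝕜] F) : Prop :=
  (1 / 2) * weakEssentialNorm T ≤ weakEssentialNorm (adjoint T)

/-- The question, for the range space `C(K)`: the inequality for all operators `C[0,1] → C(K)`. -/
def Answer (𝕜 : Type) [RCLike 𝕜] (K : Type) [TopologicalSpace K] [CompactSpace K] : Prop :=
  ∀ T : C(unitInterval, 𝕜) →L[𝕜] C(K, 𝕜), HalfDuality T

/-- **Q1: yes, with `c = 1/2`**, for real and for complex scalars. The first part is the question; the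
second part allows an arbitrary compact space `K` in the range `C(K)`. -/
theorem result : (Answer ℝ unitInterval ∧ Answer ℂ unitInterval) ∧
    ∀ (𝕜 : Type) [RCLike 𝕜] (K : Type) [TopologicalSpace K] [CompactSpace K], Answer 𝕜 K := by
  have key : ∀ (𝕜 : Type) [RCLike 𝕜] (K : Type) [TopologicalSpace K] [CompactSpace K], Answer 𝕜 K := by
    intro 𝕜 _ K _ _ T
    have h : weakEssentialNorm T ≤ 2 * weakEssentialNorm (adjoint T) := Q101.Wk.main 𝕜 K T
    show (1 / 2) * weakEssentialNorm T ≤ weakEssentialNorm (adjoint T)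
    linarith
  exact ⟨⟨key ℝ _, key ℂ _⟩, key⟩

end Pool.Agent.Results.MP_f76f53_an.WeakEssentialNormDuality
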